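import Mathlib

open MeasureTheory ProbabilityTheory Filter Topology

namespace Pool.Agent.Results.MP_8d137a_pr.CycleNearUniform

variable {s k : ℕ}

/-- The law of one letter: letter `i` has probability `p i`. -/
noncomputable def letterLaw (p : Fin s → ℝ) : Measure (Fin s) :=
  ∑ i, ENNReal.ofReal (p i) • Measure.dirac i

/-- The law of the i.i.d. source `X₁, X₂, …`, as a measure on sequences; the coordinate `x j` of a
sequence `x : ℕ → Fin s` is the letter `X_{j+1}`. -/
noncomputable def source (p : Fin s → ℝ) : Measure (ℕ → Fin s) :=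
  Measure.infinitePi (fun _ : ℕ => letterLaw p)

/-- The waiting time `τ_A`: the first index `n ≥ k` with `X_{n-k+1} ⋯ X_n = A` (and `∞` if there is
none). -/
noncomputable def tau (A : Fin k → Fin s) (x : ℕ → Fin s) : ℕ∞ :=
  sInf {m : ℕ∞ | ∃ n : ℕ, m = n ∧ k ≤ n ∧ ∀ i : Fin k, x (n - k + i) = A i}

/-- `Pr(A > B) = Pr(τ_A < τ_B) + (1/2) Pr(τ_A = τ_B)` for two independent copies of the source. -/
noncomputable def beats (p : Fin s → ℝ) (A B : Fin k → Fin s) : ℝ :=
  ((source p).prod (source p)).real {z | tau A z.1 < tau B z.2} +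
    (1 / 2) * ((source p).prod (source p)).real {z | tau A z.1 = tau B z.2}

/-! ### The source -/

section source

variable {p : Fin s → ℝ}

lemma letterLaw_prob (hp : ∀ i, 0 ≤ p i) (hs : ∑ i, p i = 1) :
    IsProbabilityMeasure (letterLaw p) := by
  constructor
  unfold letterLaw
  simp only [Measure.coe_finsetSum, Measure.coe_smul, Finset.sum_apply, Pi.smul_apply,
    measure_univ, smul_eq_mul, mul_one]
  rw [← ENNReal.ofReal_sum_of_nonneg (fun i _ => hp i), hs, ENNReal.ofReal_one]

/-- Prepend a letter. -/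
def cons (a : Fin s) (x : ℕ → Fin s) : ℕ → Fin s := fun n => Nat.casesOn n a x

@[simp] lemma cons_zero (a : Fin s) (x : ℕ → Fin s) : cons a x 0 = a := rfl
@[simp] lemma cons_succ (a : Fin s) (x : ℕ → Fin s) (n : ℕ) : cons a x (n + 1) = x n := rfl

lemma measurable_cons : Measurable (fun z : Fin s × (ℕ → Fin s) => cons z.1 z.2) := by
  rw [measurable_pi_iff]
  intro n
  cases n with
  | zero => simpa using measurable_fst
  | succ n => exact (measurable_pi_apply n).comp measurable_snd

lemma source_eq (hp : ∀ i, 0 ≤ p i) (hs : ∑ i, p i = 1) :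
    ((letterLaw p).prod (source p)).map (fun z : Fin s × (ℕ → Fin s) => cons z.1 z.2) =
      source p := by
  have := letterLaw_prob hp hs
  unfold source
  apply Measure.eq_infinitePi
  intro S t ht
  rw [Measure.map_apply measurable_cons (MeasurableSet.pi S.countable_toSet (fun i _ => ht i))]
  have hpre : (fun z : Fin s × (ℕ → Fin s) => cons z.1 z.2) ⁻¹' (Set.pi S t) =
      (if 0 ∈ S then t 0 else Set.univ) ×ˢ
        (Set.pi ((S.erase 0).image Nat.pred : Finset ℕ) (fun n => t (n + 1))) := by
    ext z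
    simp only [Set.mem_preimage, Set.mem_pi, Finset.mem_coe, Set.mem_prod, Finset.mem_image,
      Finset.mem_erase, Nat.pred_eq_sub_one, forall_exists_index, and_imp]
    constructor
    · intro h
      constructor
      · split_ifs with h0
        · exact h 0 h0
        · trivial
      · rintro n m hm hmS rfl
        obtain ⟨m, rfl⟩ := Nat.exists_eq_succ_of_ne_zero hm
        exact h (m + 1) hmS
    · rintro ⟨h1, h2⟩ n hn
      cases n with
      | zero => rw [if_pos hn] at h1; exact h1
      | succ n => exact h2 n (n + 1) (Nat.succ_ne_zero n) hn rfl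
  rw [hpre, Measure.prod_prod, Measure.infinitePi_pi _ (fun i _ => ht (i + 1))]
  have h3 : ∏ i ∈ (S.erase 0).image Nat.pred, (letterLaw p) (t (i + 1)) =
      ∏ i ∈ S.erase 0, (letterLaw p) (t i) := by
    rw [Finset.prod_image]
    · apply Finset.prod_congr rfl
      intro i hi
      rw [Finset.mem_erase] at hi
      rw [Nat.pred_eq_sub_one, Nat.sub_add_cancel (Nat.pos_of_ne_zero hi.1)]
    · intro a ha b hb hab
      simp only [Finset.coe_erase, Set.mem_sdiff, Finset.mem_coe, Set.mem_singleton_iff] at ha hb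
      simp only [Nat.pred_eq_sub_one] at hab
      omega
  rw [h3]
  split_ifs with h0
  · rw [← Finset.mul_prod_erase S _ h0]
  · rw [measure_univ, one_mul, Finset.erase_eq_of_notMem h0]

lemma source_prob (hp : ∀ i, 0 ≤ p i) (hs : ∑ i, p i = 1) :
    IsProbabilityMeasure (source p) := by
  have := letterLaw_prob hp hs
  unfold source
  infer_instance

/-- First-letter decomposition. -/
lemma source_real (hp : ∀ i, 0 ≤ p i) (hs : ∑ i, p i = 1) {E : Set (ℕ → Fin s)}
    (hE : MeasurableSet E) :
    (source p).real E = ∑ a, p a * (source p).real {x | cons a x ∈ E} := by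
  have := letterLaw_prob hp hs
  have := source_prob hp hs
  have h1 : (source p) E = ∑ a, ENNReal.ofReal (p a) * (source p) {x | cons a x ∈ E} := by
    conv_lhs => rw [← source_eq hp hs]
    rw [Measure.map_apply measurable_cons hE, Measure.prod_apply (measurable_cons hE)]
    unfold letterLaw
    rw [lintegral_finsetSum_measure]
    apply Finset.sum_congr rfl
    intro a _
    rw [lintegral_smul_measure, lintegral_dirac]
    rfl
  unfold Measure.real
  rw [h1, ENNReal.toReal_sum (fun a _ => ENNReal.mul_ne_top ENNReal.ofReal_ne_top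
    (measure_ne_top _ _))]
  apply Finset.sum_congr rfl
  intro a _
  rw [ENNReal.toReal_mul, ENNReal.toReal_ofReal (hp a)]

end source

/-! ### Words of the form `i j i` -/

section iji

variable {p : Fin s → ℝ} {i j : Fin s}

/-- No occurrence of `i j i` within the first `n` letters. -/
def G0 (i j : Fin s) (n : ℕ) : Set (ℕ → Fin s) :=
  {x | ∀ m, m + 3 ≤ n → ¬ (x m = i ∧ x (m + 1) = j ∧ x (m + 2) = i)}

/-- The same when the previous letter was `i`. -/
def G1 (i j : Fin s) (n : ℕ) : Set (ℕ → Fin s) :=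
  {x | x ∈ G0 i j n ∧ (2 ≤ n → ¬ (x 0 = j ∧ x 1 = i))}

/-- The same when the previous two letters were `i j`. -/
def G2 (i j : Fin s) (n : ℕ) : Set (ℕ → Fin s) :=
  {x | x ∈ G0 i j n ∧ (1 ≤ n → x 0 ≠ i)}

lemma measurableSet_coord (n : ℕ) (a : Fin s) : MeasurableSet {x : ℕ → Fin s | x n = a} :=
  measurableSet_eq_fun (measurable_pi_apply n) measurable_const

lemma measurableSet_G0 (i j : Fin s) (n : ℕ) : MeasurableSet (G0 i j n) := by
  have h : G0 i j n = ⋂ m : ℕ, {x | m + 3 ≤ n → ¬ (x m = i ∧ x (m + 1) = j ∧ x (m + 2) = i)} := by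
    ext x
    simp [G0]
  rw [h]
  apply MeasurableSet.iInter
  intro m
  apply MeasurableSet.imp (MeasurableSet.const _)
  apply MeasurableSet.compl
  exact (measurableSet_coord m i).inter ((measurableSet_coord (m + 1) j).inter
    (measurableSet_coord (m + 2) i))

lemma measurableSet_G1 (i j : Fin s) (n : ℕ) : MeasurableSet (G1 i j n) := by
  unfold G1
  apply (measurableSet_G0 i j n).inter
  apply MeasurableSet.imp (MeasurableSet.const _)
  apply MeasurableSet.compl
  exact (measurableSet_coord 0 j).inter (measurableSet_coord 1 i)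

lemma measurableSet_G2 (i j : Fin s) (n : ℕ) : MeasurableSet (G2 i j n) := by
  unfold G2
  apply (measurableSet_G0 i j n).inter
  apply MeasurableSet.imp (MeasurableSet.const _)
  apply MeasurableSet.compl
  exact measurableSet_coord 0 i

lemma cons_mem_G0 (a : Fin s) (x : ℕ → Fin s) (n : ℕ) :
    cons a x ∈ G0 i j (n + 1) ↔ x ∈ G0 i j n ∧ (2 ≤ n → ¬ (a = i ∧ x 0 = j ∧ x 1 = i)) := by
  constructor
  · intro h
    refine ⟨fun m hm => h (m + 1) (by omega), fun hn => ?_⟩
    exact h 0 (by omega)
  · rintro ⟨h1, h2⟩ m hm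
    cases m with
    | zero => exact h2 (by omega)
    | succ m => exact h1 m (by omega)

lemma cons_mem_G0_i (x : ℕ → Fin s) (n : ℕ) :
    cons i x ∈ G0 i j (n + 1) ↔ x ∈ G1 i j n := by
  rw [cons_mem_G0]
  simp only [true_and]
  rfl

lemma cons_mem_G0_ne {a : Fin s} (ha : a ≠ i) (x : ℕ → Fin s) (n : ℕ) :
    cons a x ∈ G0 i j (n + 1) ↔ x ∈ G0 i j n := by
  rw [cons_mem_G0]
  simp [ha]

lemma cons_mem_G1_i (hij : i ≠ j) (x : ℕ → Fin s) (n : ℕ) :
    cons i x ∈ G1 i j (n + 1) ↔ x ∈ G1 i j n := by
  unfold G1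
  simp only [Set.mem_ofPred_eq, cons_zero, hij, false_and, not_false_iff, implies_true, and_true]
  exact cons_mem_G0_i x n

lemma cons_mem_G1_j (hij : i ≠ j) (x : ℕ → Fin s) (n : ℕ) :
    cons j x ∈ G1 i j (n + 1) ↔ x ∈ G2 i j n := by
  have h : cons j x ∈ G1 i j (n + 1) ↔
      cons j x ∈ G0 i j (n + 1) ∧ (2 ≤ n + 1 → ¬ (j = j ∧ x 0 = i)) := Iff.rfl
  rw [h, cons_mem_G0_ne hij.symm]
  unfold G2
  simp only [true_and, Set.mem_ofPred_eq]
  constructor
  · rintro ⟨h1, h2⟩
    exact ⟨h1, fun hn => h2 (by omega)⟩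
  · rintro ⟨h1, h2⟩
    exact ⟨h1, fun hn => h2 (by omega)⟩

lemma cons_mem_G1_ne {a : Fin s} (ha : a ≠ i) (ha' : a ≠ j) (x : ℕ → Fin s) (n : ℕ) :
    cons a x ∈ G1 i j (n + 1) ↔ x ∈ G0 i j n := by
  have h : cons a x ∈ G1 i j (n + 1) ↔
      cons a x ∈ G0 i j (n + 1) ∧ (2 ≤ n + 1 → ¬ (a = j ∧ x 0 = i)) := Iff.rfl
  rw [h, cons_mem_G0_ne ha]
  simp [ha']

lemma cons_mem_G2_i (x : ℕ → Fin s) (n : ℕ) :
    cons i x ∉ G2 i j (n + 1) := by
  rintro ⟨_, h⟩
  exact h (by omega) rfl

lemma cons_mem_G2_ne {a : Fin s} (ha : a ≠ i) (x : ℕ → Fin s) (n : ℕ) :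
    cons a x ∈ G2 i j (n + 1) ↔ x ∈ G0 i j n := by
  have h : cons a x ∈ G2 i j (n + 1) ↔
      cons a x ∈ G0 i j (n + 1) ∧ (1 ≤ n + 1 → a ≠ i) := Iff.rfl
  rw [h, cons_mem_G0_ne ha]
  simp [ha]

lemma sum_split (hs : ∑ i, p i = 1) (i : Fin s) (f : Fin s → ℝ) (u v : ℝ)
    (hi : f i = u) (hne : ∀ a, a ≠ i → f a = v) :
    ∑ a, p a * f a = p i * u + (1 - p i) * v := by
  rw [← Finset.add_sum_erase _ _ (Finset.mem_univ i), hi]
  congr 1
  have h1 : ∑ a ∈ Finset.univ.erase i, p a * f a = ∑ a ∈ Finset.univ.erase i, p a * v := by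
    apply Finset.sum_congr rfl
    intro a ha
    rw [hne a (Finset.ne_of_mem_erase ha)]
  rw [h1, ← Finset.sum_mul]
  congr 1
  have h2 := Finset.add_sum_erase Finset.univ p (Finset.mem_univ i)
  rw [hs] at h2
  linarith

lemma sum_split2 (hs : ∑ i, p i = 1) {i j : Fin s} (hij : i ≠ j) (f : Fin s → ℝ) (u v w : ℝ)
    (hi : f i = u) (hj : f j = v) (hne : ∀ a, a ≠ i → a ≠ j → f a = w) :
    ∑ a, p a * f a = p i * u + p j * v + (1 - p i - p j) * w := by
  have h0 : ∑ a, p a * f a = ∑ a, p a * (f a + if a = j then w - v else 0) - p j * (w - v) := by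
    simp only [mul_add, Finset.sum_add_distrib, mul_ite, mul_zero, Finset.sum_ite_eq',
      Finset.mem_univ, if_true]
    ring
  rw [h0, sum_split hs i (fun a => f a + if a = j then w - v else 0) u w]
  · ring
  · simp [hi, hij]
  · intro a ha
    by_cases haj : a = j
    · subst haj
      simp [hj]
    · simp [haj, hne a ha haj]

lemma rec0 (hp : ∀ i, 0 ≤ p i) (hs : ∑ i, p i = 1) (n : ℕ) :
    (source p).real (G0 i j (n + 1)) =
      p i * (source p).real (G1 i j n) + (1 - p i) * (source p).real (G0 i j n) := by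
  rw [source_real hp hs (measurableSet_G0 i j (n + 1))]
  apply sum_split hs
  · congr 1
    ext x
    exact cons_mem_G0_i x n
  · intro a ha
    congr 1
    ext x
    exact cons_mem_G0_ne ha x n

lemma rec1 (hp : ∀ i, 0 ≤ p i) (hs : ∑ i, p i = 1) (hij : i ≠ j) (n : ℕ) :
    (source p).real (G1 i j (n + 1)) =
      p i * (source p).real (G1 i j n) + p j * (source p).real (G2 i j n) +
        (1 - p i - p j) * (source p).real (G0 i j n) := by
  rw [source_real hp hs (measurableSet_G1 i j (n + 1))]
  apply sum_split2 hs hij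
  · congr 1
    ext x
    exact cons_mem_G1_i hij x n
  · congr 1
    ext x
    exact cons_mem_G1_j hij x n
  · intro a ha ha'
    congr 1
    ext x
    exact cons_mem_G1_ne ha ha' x n

lemma rec2 (hp : ∀ i, 0 ≤ p i) (hs : ∑ i, p i = 1) (n : ℕ) :
    (source p).real (G2 i j (n + 1)) = (1 - p i) * (source p).real (G0 i j n) := by
  rw [source_real hp hs (measurableSet_G2 i j (n + 1))]
  rw [sum_split hs i _ 0 ((source p).real (G0 i j n))]
  · ring
  · have : {x : ℕ → Fin s | cons i x ∈ G2 i j (n + 1)} = ∅ := by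
      ext x
      simpa using cons_mem_G2_i x n
    rw [this]
    simp
  · intro a ha
    congr 1
    ext x
    exact cons_mem_G2_ne ha x n

/-- `T n = Pr(τ > n)` for the word `i j i`. -/
noncomputable def T (p : Fin s → ℝ) (i j : Fin s) (n : ℕ) : ℝ := (source p).real (G0 i j n)

lemma T_rec (hp : ∀ i, 0 ≤ p i) (hs : ∑ i, p i = 1) (hij : i ≠ j) (n : ℕ) :
    T p i j (n + 3) = T p i j (n + 2) - p i * p j * T p i j (n + 1) +
      (p i * p j - p i ^ 2 * p j) * T p i j n := by
  have h0 := rec0 (i := i) (j := j) hp hs (n + 2)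
  have h1 := rec1 (i := i) (j := j) hp hs hij (n + 1)
  have h2 := rec2 (i := i) (j := j) hp hs n
  have h3 := rec0 (i := i) (j := j) hp hs (n + 1)
  unfold T
  simp only [show n + 2 + 1 = n + 3 from rfl, show n + 1 + 1 = n + 2 from rfl] at *
  linear_combination h0 + p i * h1 + p i * p j * h2 - p i * h3

lemma T_small {n : ℕ} (hp : ∀ i, 0 ≤ p i) (hs : ∑ i, p i = 1) (hn : n ≤ 2) : T p i j n = 1 := by
  have := source_prob hp hs
  unfold T
  have : G0 i j n = Set.univ := by
    ext x
    simp only [Set.mem_univ, iff_true]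
    intro m hm
    omega
  rw [this]
  simp

lemma T_nonneg (n : ℕ) : 0 ≤ T p i j n := measureReal_nonneg

lemma T_anti (hp : ∀ i, 0 ≤ p i) (hs : ∑ i, p i = 1) (n : ℕ) : T p i j (n + 1) ≤ T p i j n := by
  have := source_prob hp hs
  unfold T
  refine measureReal_mono ?_ (measure_ne_top _ _)
  intro x hx m hm
  exact hx m (by omega)

end iji

/-! ### The race as a series -/

section race

variable {p : Fin s → ℝ}

lemma lt_tau_iff (i j : Fin s) (n : ℕ) (x : ℕ → Fin s) :
    (n : ℕ∞) < tau ![i, j, i] x ↔ x ∈ G0 i j n := by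
  constructor
  · intro h m hm hx
    have h1 : tau ![i, j, i] x ≤ ((m + 3 : ℕ) : ℕ∞) := by
      unfold tau
      apply sInf_le
      refine ⟨m + 3, rfl, by omega, ?_⟩
      intro l
      have e : m + 3 - 3 = m := by omega
      rw [e]
      fin_cases l
      · simpa using hx.1
      · simpa using hx.2.1
      · simpa using hx.2.2
    have h2 := lt_of_lt_of_le h h1
    have h3 : n < m + 3 := by exact_mod_cast h2
    omega
  · intro h
    by_contra hle
    rw [not_lt] at hle
    have hne : {m : ℕ∞ | ∃ n : ℕ, m = n ∧ 3 ≤ n ∧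
        ∀ l : Fin 3, x (n - 3 + l) = (![i, j, i] : Fin 3 → Fin s) l}.Nonempty := by
      by_contra he
      rw [Set.not_nonempty_iff_eq_empty] at he
      unfold tau at hle
      rw [he, sInf_empty] at hle
      exact absurd (top_le_iff.mp hle) (ENat.natCast_ne_top n)
    obtain ⟨m, hm, hm3, hx⟩ := csInf_mem hne
    unfold tau at hle
    rw [hm] at hle
    have hmn : m ≤ n := by exact_mod_cast hle
    have h0 := hx 0
    have h1 := hx 1
    have h2 := hx 2
    refine h (m - 3) (by omega) ⟨?_, ?_, ?_⟩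
    · simpa using h0
    · simpa using h1
    · simpa using h2

/-- The value of the race as a series in the tails of the two waiting times. -/
lemma beats_hasSum (ν : Measure (ℕ → Fin s)) [IsProbabilityMeasure ν]
    (U V : (ℕ → Fin s) → ℕ∞) (a b : ℕ → ℝ)
    (hU : ∀ n : ℕ, MeasurableSet {x | (n : ℕ∞) < U x})
    (hV : ∀ n : ℕ, MeasurableSet {x | (n : ℕ∞) < V x})
    (ha : ∀ n : ℕ, ν.real {x | (n : ℕ∞) < U x} = a n)
    (hb : ∀ n : ℕ, ν.real {x | (n : ℕ∞) < V x} = b n)
    (hU0 : ∀ x, 0 < U x)
    (halim : Tendsto a atTop (𝓝 0)) :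
    HasSum (fun n => (a n - a (n + 1)) * b (n + 1))
      ((ν.prod ν).real {z | U z.1 < V z.2}) ∧
    HasSum (fun n => (a n - a (n + 1)) * (b n - b (n + 1)))
      ((ν.prod ν).real {z | U z.1 = V z.2}) := by
  have mU : ∀ n : ℕ, MeasurableSet {x | U x = (n + 1 : ℕ)} := by
    intro n
    have : {x | U x = (n + 1 : ℕ)} = {x | (n : ℕ∞) < U x} \ {x | ((n + 1 : ℕ) : ℕ∞) < U x} := by
      ext x
      simp only [Set.mem_ofPred_eq, Set.mem_sdiff, not_lt]
      constructor
      · intro h
        rw [h]
        exact ⟨by exact_mod_cast Nat.lt_succ_self n, le_rfl⟩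
      · rintro ⟨h1, h2⟩
        apply le_antisymm h2
        have := Order.add_one_le_of_lt h1
        exact_mod_cast this
    rw [this]
    exact (hU n).diff (hU (n + 1))
  have mV : ∀ n : ℕ, MeasurableSet {x | V x = (n + 1 : ℕ)} := by
    intro n
    have : {x | V x = (n + 1 : ℕ)} = {x | (n : ℕ∞) < V x} \ {x | ((n + 1 : ℕ) : ℕ∞) < V x} := by
      ext x
      simp only [Set.mem_ofPred_eq, Set.mem_sdiff, not_lt]
      constructor
      · intro h
        rw [h]
        exact ⟨by exact_mod_cast Nat.lt_succ_self n, le_rfl⟩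
      · rintro ⟨h1, h2⟩
        apply le_antisymm h2
        have := Order.add_one_le_of_lt h1
        exact_mod_cast this
    rw [this]
    exact (hV n).diff (hV (n + 1))
  have eU : ∀ n : ℕ, ν.real {x | U x = (n + 1 : ℕ)} = a n - a (n + 1) := by
    intro n
    rw [← ha n, ← ha (n + 1), ← measureReal_sdiff _ (hU (n + 1))]
    · congr 1
      ext x
      simp only [Set.mem_ofPred_eq, Set.mem_sdiff, not_lt]
      constructor
      · intro h
        rw [h]
        exact ⟨by exact_mod_cast Nat.lt_succ_self n, le_rfl⟩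
      · rintro ⟨h1, h2⟩
        apply le_antisymm h2
        have := Order.add_one_le_of_lt h1
        exact_mod_cast this
    · intro x hx
      have hx' : ((n + 1 : ℕ) : ℕ∞) < U x := hx
      exact lt_trans (by exact_mod_cast Nat.lt_succ_self n) hx'
  have eV : ∀ n : ℕ, ν.real {x | V x = (n + 1 : ℕ)} = b n - b (n + 1) := by
    intro n
    rw [← hb n, ← hb (n + 1), ← measureReal_sdiff _ (hV (n + 1))]
    · congr 1
      ext x
      simp only [Set.mem_ofPred_eq, Set.mem_sdiff, not_lt]
      constructor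
      · intro h
        rw [h]
        exact ⟨by exact_mod_cast Nat.lt_succ_self n, le_rfl⟩
      · rintro ⟨h1, h2⟩
        apply le_antisymm h2
        have := Order.add_one_le_of_lt h1
        exact_mod_cast this
    · intro x hx
      have hx' : ((n + 1 : ℕ) : ℕ∞) < V x := hx
      exact lt_trans (by exact_mod_cast Nat.lt_succ_self n) hx'
  -- general summation over the value of `U`
  have gen : ∀ W : ℕ → Set (ℕ → Fin s), (∀ n, MeasurableSet (W n)) →
      HasSum (fun n => (a n - a (n + 1)) * ν.real (W n))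
        ((ν.prod ν).real (⋃ n : ℕ, {x | U x = (n + 1 : ℕ)} ×ˢ W n)) := by
    intro W hW
    have hd : Pairwise (Function.onFun Disjoint
        (fun n : ℕ => {x | U x = (n + 1 : ℕ)} ×ˢ W n)) := by
      intro m n hmn
      rw [Function.onFun, Set.disjoint_left]
      rintro ⟨x, y⟩ ⟨h1, _⟩ ⟨h2, _⟩
      apply hmn
      simp only [Set.mem_ofPred_eq] at h1 h2
      rw [h1] at h2
      have : m + 1 = n + 1 := by exact_mod_cast h2
      omega
    have hm : ∀ n : ℕ, MeasurableSet ({x | U x = (n + 1 : ℕ)} ×ˢ W n) :=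
      fun n => (mU n).prod (hW n)
    have h1 := measure_iUnion (μ := ν.prod ν) hd hm
    have h2 : ∀ n : ℕ, (ν.prod ν) ({x | U x = (n + 1 : ℕ)} ×ˢ W n) =
        ν {x | U x = (n + 1 : ℕ)} * ν (W n) := fun n => Measure.prod_prod _ _
    have hne : ∑' n : ℕ, (ν.prod ν) ({x | U x = (n + 1 : ℕ)} ×ˢ W n) ≠ ⊤ := by
      rw [← h1]
      exact measure_ne_top _ _
    have h3 : HasSum (fun n : ℕ => ((ν.prod ν) ({x | U x = (n + 1 : ℕ)} ×ˢ W n)).toReal)
        ((∑' n : ℕ, (ν.prod ν) ({x | U x = (n + 1 : ℕ)} ×ˢ W n)).toReal) := by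
      rw [ENNReal.tsum_toReal_eq (fun n => measure_ne_top _ _)]
      exact (ENNReal.summable_toReal hne).hasSum
    rw [← h1] at h3
    unfold Measure.real
    convert h3 using 1
    funext n
    rw [h2 n, ENNReal.toReal_mul, ← eU n]
    rfl
  constructor
  · have h := gen (fun n => {x | ((n + 1 : ℕ) : ℕ∞) < V x}) (fun n => hV (n + 1))
    simp_rw [hb] at h
    convert h using 2
    ext ⟨x, y⟩
    simp only [Set.mem_ofPred_eq, Set.mem_iUnion, Set.mem_prod]
    constructor
    · intro hlt
      have hne : U x ≠ ⊤ := ne_top_of_lt hlt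
      obtain ⟨m, hm⟩ := ENat.ne_top_iff_exists.mp hne
      have hpos := hU0 x
      rw [← hm] at hpos
      have hm0 : 0 < m := by exact_mod_cast hpos
      refine ⟨m - 1, ?_, ?_⟩
      · rw [Nat.sub_add_cancel hm0, ← hm]
      · rw [Nat.sub_add_cancel hm0, hm]
        exact hlt
    · rintro ⟨n, h1, h2⟩
      rw [h1]
      exact h2
  · have h := gen (fun n => {x | V x = (n + 1 : ℕ)}) mV
    simp_rw [eV] at h
    -- the event that both waiting times are infinite is null
    have hnull : (ν.prod ν).real ({x | U x = ⊤} ×ˢ {x | V x = ⊤}) = 0 := by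
      have hle : ∀ n : ℕ, (ν.prod ν).real ({x | U x = ⊤} ×ˢ {x | V x = ⊤}) ≤ a n := by
        intro n
        calc (ν.prod ν).real ({x | U x = ⊤} ×ˢ {x | V x = ⊤})
            ≤ (ν.prod ν).real ({x | (n : ℕ∞) < U x} ×ˢ Set.univ) := by
              apply measureReal_mono _ (measure_ne_top _ _)
              rintro ⟨x, y⟩ ⟨h1, _⟩
              refine ⟨?_, trivial⟩
              simp only [Set.mem_ofPred_eq] at h1 ⊢
              rw [h1]
              exact ENat.natCast_lt_top n
          _ = a n := by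
              unfold Measure.real
              rw [Measure.prod_prod, measure_univ, mul_one, ← ha n]
              rfl
      have h0 := ge_of_tendsto' halim hle
      exact le_antisymm h0 measureReal_nonneg
    convert h using 1
    have hset : {z : (ℕ → Fin s) × (ℕ → Fin s) | U z.1 = V z.2} =
        (⋃ n : ℕ, {x | U x = (n + 1 : ℕ)} ×ˢ {x | V x = (n + 1 : ℕ)}) ∪
          ({x | U x = ⊤} ×ˢ {x | V x = ⊤}) := by
      ext ⟨x, y⟩
      simp only [Set.mem_ofPred_eq, Set.mem_iUnion, Set.mem_prod, Set.mem_union]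
      constructor
      · intro heq
        by_cases hne : U x = ⊤
        · right
          exact ⟨hne, by rw [← heq, hne]⟩
        · left
          obtain ⟨m, hm⟩ := ENat.ne_top_iff_exists.mp hne
          have hpos := hU0 x
          rw [← hm] at hpos
          have hm0 : 0 < m := by exact_mod_cast hpos
          refine ⟨m - 1, ?_, ?_⟩
          · rw [Nat.sub_add_cancel hm0, ← hm]
          · rw [Nat.sub_add_cancel hm0, hm, heq]
      · rintro (⟨n, h1, h2⟩ | ⟨h1, h2⟩)
        · rw [h1, h2]
        · rw [h1, h2]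
    rw [hset]
    apply le_antisymm
    · refine (measureReal_union_le _ _).trans ?_
      rw [hnull, add_zero]
    · exact measureReal_mono Set.subset_union_left (measure_ne_top _ _)

end race

/-! ### Algebra of the two recurrences -/

section algebra

/-- The determinant of the linear system for the correlation sums. -/
def DD (P c Q d : ℝ) : ℝ :=
  (1 - (c - P) * (d - Q)) * ((1 - (c - P) * (d - Q)) * (1 - (c - P) * (d - Q) - Q * c)
      - (1 - (c - P) * d) * (1 - c * (d - Q) - Q))
    - Q * (P * (1 - (c - P) * (d - Q) - Q * c) + (1 - (c - P) * d) * (Q * (c - P)))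
    - (1 - (d - Q) * c) * (-(P * (1 - c * (d - Q) - Q)) -
      (1 - (c - P) * (d - Q)) * (Q * (c - P)))

/-- The numerator of `2 Pr(A > B) - 1`. -/
def NN (P c Q d : ℝ) : ℝ :=
  P^3*Q^2*d - 2*P^3*Q*d^2 + P^3*d^3 - P^2*c*Q^3 + 3*P^2*c*Q*d^2 - 2*P^2*c*d^3 - P^2*Q*d^2
    - 3*P^2*Q*d + 2*P^2*d^2 + 2*P*c^2*Q^3 - 3*P*c^2*Q^2*d + P*c^2*Q^2 - 2*P*c^2*Q*d
    + P*c^2*d^3 + P*c^2*d^2 + 3*P*c*Q^2 + 2*P*c*Q*d^2 + 2*P*c*Q - 2*P*c*d^2 - 2*P*c*d
    - 2*P*Q*d + P*d + P - c^3*Q^3 + 2*c^3*Q^2*d - c^3*Q*d^2 - 2*c^2*Q^2 - c^2*Q*d^2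
    + 2*c^2*Q*d + 2*c*Q*d - c*Q - Q

lemma solve_system (P c Q d R0 R1 Rm R2 Rm2 Rm3 : ℝ)
    (h1 : R2 - 1 = (R1 - 1) - d * (R0 - 1) + (d - Q) * Rm)
    (h1' : Rm2 - 1 = (Rm - 1) - c * (R0 - 1) + (c - P) * R1)
    (h2 : R1 - 2 = (R0 - 2) - d * (Rm - 1) + (d - Q) * Rm2)
    (h2' : Rm - 2 = (R0 - 2) - c * (R1 - 1) + (c - P) * R2)
    (h3 : R0 - 3 = (Rm - 2) - d * (Rm2 - 1) + (d - Q) * Rm3)
    (h3' : Rm3 = Rm2 - c * Rm + (c - P) * R0) :
    DD P c Q d * (R1 - Rm) = NN P c Q d := by
  have E1 : (1 - (c - P) * (d - Q)) * R1 + Q * Rm - (1 - (d - Q) * c) * R0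
      = d + (d - Q) * c := by
    linear_combination h2 + (d - Q) * h1'
  have E2 : P * R1 + (1 - (c - P) * (d - Q)) * Rm - (1 - (c - P) * d) * R0
      = c + (c - P) * d := by
    linear_combination h2' + (c - P) * h1
  have E3 : Q * (c - P) * R1 - (1 - c * (d - Q) - Q) * Rm
      + (1 - (c - P) * (d - Q) - Q * c) * R0 = 1 + d - Q * c := by
    linear_combination h3 + (d - Q) * h3' - Q * h1'
  unfold DD NN
  -- the multipliers are the differences of the cofactors of the first two columns
  linear_combination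
    (((1 - (c - P) * (d - Q)) * (1 - (c - P) * (d - Q) - Q * c)
        - (1 - (c - P) * d) * (1 - c * (d - Q) - Q))
      + (P * (1 - (c - P) * (d - Q) - Q * c) + (1 - (c - P) * d) * (Q * (c - P)))) * E1 +
    (-(Q * (1 - (c - P) * (d - Q) - Q * c) - (1 - (d - Q) * c) * (1 - c * (d - Q) - Q))
      - ((1 - (c - P) * (d - Q)) * (1 - (c - P) * (d - Q) - Q * c)
        + (1 - (d - Q) * c) * (Q * (c - P)))) * E2 +
    ((-(Q * (1 - (c - P) * d)) + (1 - (d - Q) * c) * (1 - (c - P) * (d - Q)))
      - ((1 - (c - P) * (d - Q)) * (1 - (c - P) * d) - (1 - (d - Q) * c) * P)) * E3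

end algebra



section curve

/-- The value of `P = p_i^2 p_j` along the curve. -/
noncomputable def PB (t : ℝ) : ℝ :=
  (1 + 13752021718 / 691490937719 * t
    - 145358575208854045591728189 / 330643111051479730657427091352065959 * t ^ 2
    + 7 / 20000000000 * t ^ 3) / 343

/-- The value of `c = p_i p_j` along the curve. -/
noncomputable def cB (t : ℝ) : ℝ := (1 + t) / 49

/-- Cofactor of `t^3` in the first numerator. -/
noncomputable def MM (t : ℝ) : ℝ :=
    (158168570683141330968513043534585211158811260061690773584599 / 151965361446187894742768530014382900776999509269232361259382420000000000)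
    + (-54145329735591981135466970560295504296422060830000289970526568123936149542014773 / 72663714214934027348300985419687233458968556246423309185483551884348930494685977745620000000000) * t
    + (1676037360626899069534779941496570242558209092300747486978053394894768380071420998095199 / 12561574970157540121199459857327817957058759717343712227122271848739807846891290324439784861260195000000000) * t ^ 2
    + (23363171418721049572471437994707213025558623565645628352932948118215797907723123506146861768400594166028598163587 / 34322509326544882712220540517708606845838186926315369144648017397558375681259297756513750528460975565185225357549090499400000000000000000000) * t ^ 3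
    + (-14700153692498592282068253002870418087442671721560379979708901034414937721 / 51902653010667162391643561014062309613548968747445220846773965631677807496204269818300000000000000000000) * t ^ 4
    + (-97257267005625029529 / 3889983137209553883211563987047920801039100000000000000000000) * t ^ 5
    + (9 / 1356446145698000000000000000000000000000000) * t ^ 6

/-- Cofactor of `t^3` in the second numerator. -/
noncomputable def KK (t : ℝ) : ℝ :=
    (78884857272311165933671509856763013397330548350289226415401 / 75982680723093947371384265007191450388499754634616180629691210000000000)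
    + (-11593773459578103874937616432413528850151939413478700137332022042159520914411503194181865987 / 25123149940315080242398919714655635914117519434687424454244543697479615693782580648879569722520390000000000) * t ^ 2
    + (-2459647341262356706890039331291059786899115733610087239596429758556028458658697780288348261667816842011074254685833987963758492903841 / 6645437164542860355003991003330540316447210210060653870859203020120922821845413632922955362108071301610893697876468140601596001923208000000000000000000) * t ^ 4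
    + (1521781623404200231000539608528702312464677294236471026968599571523621186030900461518613449422606453719952522057186171133191128712873340484367027342684117917735865025453 / 39236928899670992070510829519801143814882846313706500152451653721651594658095126146402110786761564140001661007930394436422912661071438171214205313023085253135501229937000000000000000000000000000000) * t ^ 6
    + (-12202774924525468177654019681739944969415744705756206802511914356584914090941936018432981575979352106533822337060600870863090723896033249638006328410941420392795880277052400803814493 / 10720867895174822967554560058360816739638753251814087435546113368029926678591602540439700153547886398315132705131577142821596057831718041267869246711842398180544467186493652518219433551933404000000000000000000000000000000) * t ^ 8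
    + (2312376176679785695870302759711860453103589093578971856294164980870929011174656819867049742981721105921065101 / 280183749604448022140575840960886586496638260622982605262432795082109189234769777604193881864987555634165104959584412240000000000000000000000000000000000000000) * t ^ 10
    + (-745953325933919860919507631352065959 / 7322442017753068876895316664195213349143185214400000000000000000000000000000000000000000000000000) * t ^ 12

lemma NN_BA (t : ℝ) : NN (PB t) (cB t) (1 / 343) (1 / 49) = t ^ 3 * MM t := by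
  unfold NN PB cB MM
  ring

lemma NN_CB (t : ℝ) : NN (PB (-t)) (cB (-t)) (PB t) (cB t) = t ^ 3 * KK t := by
  unfold NN PB cB KK
  ring

end curve


/-! ### Series -/

section series

variable {a b : ℕ → ℝ} {P c Q d : ℝ}

/-- The properties of the tail sequence of a word `i j i` with `P = p_i^2 p_j`, `c = p_i p_j`. -/
structure IsTail (P c : ℝ) (a : ℕ → ℝ) : Prop where
  hrec : ∀ n, a (n + 3) = a (n + 2) - c * a (n + 1) + (c - P) * a n
  h0 : a 0 = 1
  h1 : a 1 = 1
  h2 : a 2 = 1
  nonneg : ∀ n, 0 ≤ a n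
  anti : ∀ n, a (n + 1) ≤ a n

lemma IsTail.le_one (ha : IsTail P c a) (n : ℕ) : a n ≤ 1 := by
  induction n with
  | zero => exact ha.h0.le
  | succ n ih => exact (ha.anti n).trans ih

lemma IsTail.summable (ha : IsTail P c a) (hP : 0 < P) (hc : c ≤ 1) :
    Summable a := by
  have hstep : ∀ n, P * a n ≤ a n - a (n + 3) := by
    intro n
    have h1 := ha.anti n
    have h2 := ha.anti (n + 1)
    have h3 : a (n + 2) ≤ a (n + 1) := h2
    have h4 := ha.hrec n
    have h5 : (1 - c) * a (n + 1) ≤ (1 - c) * a n :=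
      mul_le_mul_of_nonneg_left h1 (by linarith)
    nlinarith
  have hbound : ∀ n, ∑ i ∈ Finset.range n, a i ≤ 3 / P := by
    intro n
    have h1 : ∑ i ∈ Finset.range n, P * a i ≤ a 0 + a 1 + a 2 - (a n + a (n + 1) + a (n + 2)) := by
      induction n with
      | zero => simp
      | succ n ih =>
        rw [Finset.sum_range_succ]
        have := hstep n
        have e : a (n + 1 + 2) = a (n + 3) := rfl
        have e' : a (n + 1 + 1) = a (n + 2) := rfl
        rw [e, e']
        linarith
    rw [← Finset.mul_sum, ha.h0, ha.h1, ha.h2] at h1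
    have h2 := ha.nonneg n
    have h3 := ha.nonneg (n + 1)
    have h4 := ha.nonneg (n + 2)
    rw [le_div_iff₀ hP]
    linarith
  exact summable_of_sum_range_le ha.nonneg hbound

lemma prod_summable (ha : IsTail P c a) (hs : Summable a) (hb : IsTail Q d b) (k l : ℕ) :
    Summable (fun n => a (n + k) * b (n + l)) := by
  refine Summable.of_nonneg_of_le (fun n => mul_nonneg (ha.nonneg _) (hb.nonneg _)) (fun n => ?_)
    ((summable_nat_add_iff k).mpr hs)
  have := hb.le_one (n + l)
  have h2 := ha.nonneg (n + k)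
  nlinarith

lemma tsum_shift {f : ℕ → ℝ} (hf : Summable f) : ∑' n, f (n + 1) = ∑' n, f n - f 0 := by
  rw [hf.tsum_eq_zero_add]
  ring

lemma series_value (ha : IsTail P c a) (hb : IsTail Q d b) (hsa : Summable a) {v w : ℝ}
    (hv : HasSum (fun n => (a n - a (n + 1)) * b (n + 1)) v)
    (hw : HasSum (fun n => (a n - a (n + 1)) * (b n - b (n + 1))) w) :
    DD P c Q d * (2 * (v + (1 / 2) * w) - 1) = NN P c Q d := by
  have S : ∀ k l, Summable (fun n => a (n + k) * b (n + l)) := prod_summable ha hsa hb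
  set R : ℕ → ℕ → ℝ := fun k l => ∑' n, a (n + k) * b (n + l) with hR
  have shift : ∀ k l, R (k + 1) (l + 1) = R k l - a k * b l := by
    intro k l
    have h := tsum_shift (S k l)
    simp only [hR]
    have e : ∀ n, a (n + (k + 1)) * b (n + (l + 1)) = a (n + 1 + k) * b (n + 1 + l) := by
      intro n
      rw [show n + (k + 1) = n + 1 + k by ring, show n + (l + 1) = n + 1 + l by ring]
    simp_rw [e, h]
    simp
  have recb : ∀ k l, R k (l + 3) = R k (l + 2) - d * R k (l + 1) + (d - Q) * R k l := by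
    intro k l
    simp only [hR]
    have e : ∀ n, a (n + k) * b (n + (l + 3)) = a (n + k) * b (n + (l + 2)) -
        d * (a (n + k) * b (n + (l + 1))) + (d - Q) * (a (n + k) * b (n + l)) := by
      intro n
      have := hb.hrec (n + l)
      rw [show n + (l + 3) = n + l + 3 by ring, show n + (l + 2) = n + l + 2 by ring,
        show n + (l + 1) = n + l + 1 by ring, this]
      ring
    simp_rw [e]
    rw [Summable.tsum_add, Summable.tsum_sub, tsum_mul_left, tsum_mul_left]
    · exact S _ _
    · exact (S _ _).mul_left _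
    · exact (S _ _).sub ((S _ _).mul_left _)
    · exact (S _ _).mul_left _
  have reca : ∀ k l, R (k + 3) l = R (k + 2) l - c * R (k + 1) l + (c - P) * R k l := by
    intro k l
    simp only [hR]
    have e : ∀ n, a (n + (k + 3)) * b (n + l) = a (n + (k + 2)) * b (n + l) -
        c * (a (n + (k + 1)) * b (n + l)) + (c - P) * (a (n + k) * b (n + l)) := by
      intro n
      have := ha.hrec (n + k)
      rw [show n + (k + 3) = n + k + 3 by ring, show n + (k + 2) = n + k + 2 by ring,
        show n + (k + 1) = n + k + 1 by ring, this]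
      ring
    simp_rw [e]
    rw [Summable.tsum_add, Summable.tsum_sub, tsum_mul_left, tsum_mul_left]
    · exact S _ _
    · exact (S _ _).mul_left _
    · exact (S _ _).sub ((S _ _).mul_left _)
    · exact (S _ _).mul_left _
  have key := solve_system P c Q d (R 0 0) (R 0 1) (R 1 0) (R 0 2) (R 2 0) (R 3 0)
    (by
      have := recb 1 0
      rw [show (0 : ℕ) + 3 = 2 + 1 from rfl, show (0 : ℕ) + 2 = 1 + 1 from rfl,
        shift 0 2, shift 0 1, shift 0 0] at this
      rw [ha.h0, hb.h0, hb.h1, hb.h2] at this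
      linarith)
    (by
      have := reca 0 1
      rw [show (0 : ℕ) + 3 = 2 + 1 from rfl, show (0 : ℕ) + 2 = 1 + 1 from rfl,
        shift 2 0, shift 1 0, shift 0 0] at this
      rw [ha.h0, hb.h0, ha.h1, ha.h2] at this
      linarith)
    (by
      have := recb 2 0
      rw [show (0 : ℕ) + 3 = 2 + 1 from rfl, show (0 : ℕ) + 2 = 1 + 1 from rfl,
        show (2 : ℕ) = 1 + 1 from rfl, shift 1 (1 + 1), shift 1 1, shift 0 1, shift 1 0,
        shift 0 0] at this
      rw [ha.h0, hb.h0, ha.h1, hb.h1, hb.h2] at this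
      linarith)
    (by
      have := reca 0 2
      rw [show (0 : ℕ) + 3 = 2 + 1 from rfl, show (0 : ℕ) + 2 = 1 + 1 from rfl,
        show (2 : ℕ) = 1 + 1 from rfl, shift (1 + 1) 1, shift 1 1, shift 1 0, shift 0 1,
        shift 0 0] at this
      rw [ha.h0, hb.h0, ha.h1, hb.h1, ha.h2] at this
      linarith)
    (by
      have h := recb 3 0
      have e33 : R 3 3 = R 0 0 - 3 := by
        have h1 := shift 2 2
        have h2 := shift 1 1
        have h3 := shift 0 0
        simp only [Nat.reduceAdd] at h1 h2 h3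
        rw [ha.h2, hb.h2] at h1
        rw [ha.h1, hb.h1] at h2
        rw [ha.h0, hb.h0] at h3
        linarith
      have e32 : R 3 2 = R 1 0 - 2 := by
        have h1 := shift 2 1
        have h2 := shift 1 0
        simp only [Nat.reduceAdd] at h1 h2
        rw [ha.h2, hb.h1] at h1
        rw [ha.h1, hb.h0] at h2
        linarith
      have e31 : R 3 1 = R 2 0 - 1 := by
        have h1 := shift 2 0
        simp only [Nat.reduceAdd] at h1
        rw [ha.h2, hb.h0] at h1
        linarith
      simp only [Nat.reduceAdd] at h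
      rw [e33, e32, e31] at h
      linarith)
    (reca 0 0)
  have e11 : R 1 1 = R 0 0 - 1 := by
    have h := shift 0 0
    simp only [Nat.reduceAdd] at h
    rw [ha.h0, hb.h0] at h
    linarith
  have hv' : v = R 0 1 - (R 0 0 - 1) := by
    rw [← e11]
    have h := (S 0 1).hasSum.sub (S 1 1).hasSum
    have e : (fun n => (a n - a (n + 1)) * b (n + 1)) =
        fun n => a (n + 0) * b (n + 1) - a (n + 1) * b (n + 1) := by
      funext n
      simp only [add_zero]
      ring
    rw [e] at hv
    exact hv.unique h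
  have hw' : w = R 0 0 - R 0 1 - R 1 0 + (R 0 0 - 1) := by
    rw [← e11]
    have h := (((S 0 0).hasSum.sub (S 0 1).hasSum).sub (S 1 0).hasSum).add (S 1 1).hasSum
    have e : (fun n => (a n - a (n + 1)) * (b n - b (n + 1))) =
        fun n => a (n + 0) * b (n + 0) - a (n + 0) * b (n + 1) - a (n + 1) * b (n + 0) +
          a (n + 1) * b (n + 1) := by
      funext n
      simp only [add_zero]
      ring
    rw [e] at hw
    exact hw.unique h
  rw [← key, hv', hw']
  ring

end series

/-! ### The race between two words of the form `i j i` -/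

section final

variable {p : Fin s → ℝ}

lemma isTail_T (hp : ∀ i, 0 ≤ p i) (hs : ∑ i, p i = 1) {i j : Fin s} (hij : i ≠ j) :
    IsTail (p i ^ 2 * p j) (p i * p j) (T p i j) where
  hrec := T_rec hp hs hij
  h0 := T_small hp hs (by norm_num)
  h1 := T_small hp hs (by norm_num)
  h2 := T_small hp hs (by norm_num)
  nonneg := T_nonneg
  anti := T_anti hp hs

lemma p_le_one (hp : ∀ i, 0 ≤ p i) (hs : ∑ i, p i = 1) (i : Fin s) : p i ≤ 1 := by
  rw [← hs]
  exact Finset.single_le_sum (fun a _ => hp a) (Finset.mem_univ i)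

/-- The exact value of a race between two words `i j i` and `k l k`. -/
lemma beats_formula (hp : ∀ i, 0 < p i) (hs : ∑ i, p i = 1) {i j k l : Fin s} (hij : i ≠ j)
    (hkl : k ≠ l) :
    DD (p i ^ 2 * p j) (p i * p j) (p k ^ 2 * p l) (p k * p l) *
      (2 * beats p ![i, j, i] ![k, l, k] - 1) =
    NN (p i ^ 2 * p j) (p i * p j) (p k ^ 2 * p l) (p k * p l) := by
  have hp' : ∀ i, 0 ≤ p i := fun i => (hp i).le
  have := source_prob hp' hs
  have hta := isTail_T hp' hs hij
  have htb := isTail_T hp' hs hkl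
  have hc : p i * p j ≤ 1 := by
    have h1 := p_le_one hp' hs i
    have h2 := p_le_one hp' hs j
    have h3 := hp' i
    have h4 := hp' j
    nlinarith
  have hP : 0 < p i ^ 2 * p j := mul_pos (pow_pos (hp i) 2) (hp j)
  have hsum := hta.summable hP hc
  have hset : ∀ (i j : Fin s) (n : ℕ), {x | (n : ℕ∞) < tau ![i, j, i] x} = G0 i j n := by
    intro i j n
    ext x
    exact lt_tau_iff i j n x
  have hpos : ∀ (i j : Fin s) (x : ℕ → Fin s), 0 < tau ![i, j, i] x := by
    intro i j x
    have h : ((0 : ℕ) : ℕ∞) < tau ![i, j, i] x := by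
      rw [lt_tau_iff]
      intro m hm
      omega
    simpa using h
  obtain ⟨h1, h2⟩ := beats_hasSum (source p) (tau ![i, j, i]) (tau ![k, l, k]) (T p i j) (T p k l)
    (fun n => by rw [hset]; exact measurableSet_G0 i j n)
    (fun n => by rw [hset]; exact measurableSet_G0 k l n)
    (fun n => by rw [hset]; rfl) (fun n => by rw [hset]; rfl) (hpos i j)
    hsum.tendsto_atTop_zero
  exact series_value hta htb hsum h1 h2

end final

/-! ### The curve of source laws -/

section law

/-- The source law on seven letters attached to the parameter `t`. -/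
noncomputable def pt (t : ℝ) : Fin 7 → ℝ :=
  ![1 / 7, 1 / 7, PB t / cB t, cB t ^ 2 / PB t, PB (-t) / cB (-t), cB (-t) ^ 2 / PB (-t),
    1 - (1 / 7 + 1 / 7 + PB t / cB t + cB t ^ 2 / PB t + PB (-t) / cB (-t) +
      cB (-t) ^ 2 / PB (-t))]

lemma continuous_PB : Continuous PB := by
  unfold PB
  fun_prop

lemma continuous_cB : Continuous cB := by
  unfold cB
  fun_prop

lemma continuous_MM : Continuous MM := by
  unfold MM
  fun_prop

lemma continuous_KK : Continuous KK := by
  unfold KK
  fun_prop

lemma PB_zero : PB 0 = 1 / 343 := by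
  unfold PB
  norm_num

lemma cB_zero : cB 0 = 1 / 49 := by
  unfold cB
  norm_num

lemma tendsto_PB : Tendsto PB (𝓝 0) (𝓝 (1 / 343)) := by
  rw [← PB_zero]
  exact continuous_PB.tendsto 0

lemma tendsto_cB : Tendsto cB (𝓝 0) (𝓝 (1 / 49)) := by
  rw [← cB_zero]
  exact continuous_cB.tendsto 0

lemma tendsto_neg0 : Tendsto (fun t : ℝ => -t) (𝓝 0) (𝓝 0) := by
  have := (continuous_neg (G := ℝ)).tendsto 0
  simpa using this

lemma tendsto_x : Tendsto (fun t => PB t / cB t) (𝓝 0) (𝓝 (1 / 7)) := by
  have h := tendsto_PB.div tendsto_cB (by norm_num)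
  have e : (1 / 343 : ℝ) / (1 / 49) = 1 / 7 := by norm_num
  rwa [e] at h

lemma tendsto_y : Tendsto (fun t => cB t ^ 2 / PB t) (𝓝 0) (𝓝 (1 / 7)) := by
  have h := (tendsto_cB.pow 2).div tendsto_PB (by norm_num)
  have e : (1 / 49 : ℝ) ^ 2 / (1 / 343) = 1 / 7 := by norm_num
  rwa [e] at h

lemma tendsto_pt (i : Fin 7) : Tendsto (fun t => pt t i) (𝓝 0) (𝓝 (1 / 7)) := by
  have hx := tendsto_x
  have hy := tendsto_y
  have hx' := hx.comp tendsto_neg0
  have hy' := hy.comp tendsto_neg0
  fin_cases i
  · exact tendsto_const_nhds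
  · exact tendsto_const_nhds
  · exact hx
  · exact hy
  · exact hx'
  · exact hy'
  · have h := (((((tendsto_const_nhds (x := (1 / 7 : ℝ) + 1 / 7) (f := 𝓝 (0 : ℝ))).add hx).add
      hy).add hx').add hy')
    have h2 := (tendsto_const_nhds (x := (1 : ℝ)) (f := 𝓝 (0 : ℝ))).sub h
    have e : (1 : ℝ) - (1 / 7 + 1 / 7 + 1 / 7 + 1 / 7 + 1 / 7 + 1 / 7) = 1 / 7 := by norm_num
    rw [e] at h2
    exact h2

lemma sum_pt (t : ℝ) : ∑ i, pt t i = 1 := by
  simp only [Fin.sum_univ_succ, pt]
  simp
  ring

lemma prod_law {P c : ℝ} (hP : 0 < P) (hc : 0 < c) :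
    (P / c) ^ 2 * (c ^ 2 / P) = P ∧ (P / c) * (c ^ 2 / P) = c := by
  constructor
  · field_simp
  · field_simp

end law

/-- **Cycles arbitrarily close to the uniform law.** For `s = 7` letters and words of length
`k = 3`: for every `ε > 0` there are a probability vector `p` with `|p_i - 1/7| < ε` for all `i`
and three words `A, B, C` with `Pr(A > B) > 1/2`, `Pr(B > C) > 1/2` and `Pr(C > A) > 1/2`. -/
theorem result : ∀ ε : ℝ, 0 < ε → ∃ p : Fin 7 → ℝ, (∀ i, 0 ≤ p i) ∧ ∑ i, p i = 1 ∧
    (∀ i, |p i - 1 / 7| < ε) ∧ ∃ A B C : Fin 3 → Fin 7,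
      1 / 2 < beats p A B ∧ 1 / 2 < beats p B C ∧ 1 / 2 < beats p C A := by
  intro ε hε
  -- all requirements hold for small positive `t`
  have hclose : ∀ᶠ t in 𝓝 (0 : ℝ), ∀ i, |pt t i - 1 / 7| < ε := by
    rw [Filter.eventually_all]
    intro i
    have h := tendsto_pt i
    rw [Metric.tendsto_nhds] at h
    have := h ε hε
    simpa [Real.dist_eq] using this
  have hpos : ∀ᶠ t in 𝓝 (0 : ℝ), ∀ i, 0 < pt t i := by
    rw [Filter.eventually_all]
    intro i
    exact (tendsto_pt i).eventually (lt_mem_nhds (by norm_num))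
  have hPB : ∀ᶠ t in 𝓝 (0 : ℝ), 0 < PB t := tendsto_PB.eventually (lt_mem_nhds (by norm_num))
  have hcB : ∀ᶠ t in 𝓝 (0 : ℝ), 0 < cB t := tendsto_cB.eventually (lt_mem_nhds (by norm_num))
  have hPB' : ∀ᶠ t in 𝓝 (0 : ℝ), 0 < PB (-t) := tendsto_neg0.eventually hPB
  have hcB' : ∀ᶠ t in 𝓝 (0 : ℝ), 0 < cB (-t) := tendsto_neg0.eventually hcB
  have hM : ∀ᶠ t in 𝓝 (0 : ℝ), 0 < MM t := by
    have h0 : 0 < MM 0 := by unfold MM; norm_num
    exact (continuous_MM.tendsto 0).eventually (lt_mem_nhds h0)
  have hM' : ∀ᶠ t in 𝓝 (0 : ℝ), 0 < MM (-t) := tendsto_neg0.eventually hM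
  have hK : ∀ᶠ t in 𝓝 (0 : ℝ), 0 < KK t := by
    have h0 : 0 < KK 0 := by unfold KK; norm_num
    exact (continuous_KK.tendsto 0).eventually (lt_mem_nhds h0)
  have contD : ∀ f g h k : ℝ → ℝ, Tendsto f (𝓝 0) (𝓝 (1 / 343)) → Tendsto g (𝓝 0) (𝓝 (1 / 49)) →
      Tendsto h (𝓝 0) (𝓝 (1 / 343)) → Tendsto k (𝓝 0) (𝓝 (1 / 49)) →
      ∀ᶠ t in 𝓝 (0 : ℝ), 0 < DD (f t) (g t) (h t) (k t) := by
    intro f g h k hf hg hh hk
    have hc : Continuous (fun z : ℝ × ℝ × ℝ × ℝ => DD z.1 z.2.1 z.2.2.1 z.2.2.2) := by
      unfold DD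
      fun_prop
    have ht : Tendsto (fun t => (f t, g t, h t, k t)) (𝓝 0)
        (𝓝 ((1 / 343 : ℝ), (1 / 49 : ℝ), (1 / 343 : ℝ), (1 / 49 : ℝ))) :=
      hf.prodMk_nhds (hg.prodMk_nhds (hh.prodMk_nhds hk))
    have h2 := (hc.tendsto _).comp ht
    refine h2.eventually (lt_mem_nhds ?_)
    unfold DD
    norm_num
  have hPBn := tendsto_PB.comp tendsto_neg0
  have hcBn := tendsto_cB.comp tendsto_neg0
  have hD1 := contD PB cB (fun _ => 1 / 343) (fun _ => 1 / 49) tendsto_PB tendsto_cB
    tendsto_const_nhds tendsto_const_nhds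
  have hD2 := contD (fun _ => 1 / 343) (fun _ => 1 / 49) (PB ∘ fun t => -t) (cB ∘ fun t => -t)
    tendsto_const_nhds tendsto_const_nhds hPBn hcBn
  have hD3 := contD (PB ∘ fun t => -t) (cB ∘ fun t => -t) PB cB hPBn hcBn tendsto_PB tendsto_cB
  have hall := hclose.and (hpos.and (hPB.and (hcB.and (hPB'.and (hcB'.and (hM.and (hM'.and
    (hK.and (hD1.and (hD2.and hD3))))))))))
  obtain ⟨t, ⟨h1, h2, h3, h4, h5, h6, h7, h8, h9, h10, h11, h12⟩, ht⟩ :=
    ((hall.filter_mono nhdsWithin_le_nhds).and (self_mem_nhdsWithin (s := Set.Ioi (0 : ℝ)))).exists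
  have ht0 : 0 < t := ht
  have hne01 : (0 : Fin 7) ≠ 1 := by decide
  have hne23 : (2 : Fin 7) ≠ 3 := by decide
  have hne45 : (4 : Fin 7) ≠ 5 := by decide
  have eA1 : pt t 0 ^ 2 * pt t 1 = 1 / 343 := by simp [pt]; norm_num
  have eA2 : pt t 0 * pt t 1 = 1 / 49 := by simp [pt]; norm_num
  have eB1 : pt t 2 ^ 2 * pt t 3 = PB t := (prod_law h3 h4).1
  have eB2 : pt t 2 * pt t 3 = cB t := (prod_law h3 h4).2
  have eC1 : pt t 4 ^ 2 * pt t 5 = PB (-t) := (prod_law h5 h6).1
  have eC2 : pt t 4 * pt t 5 = cB (-t) := (prod_law h5 h6).2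
  refine ⟨pt t, fun i => (h2 i).le, sum_pt t, h1, ![2, 3, 2], ![0, 1, 0], ![4, 5, 4], ?_, ?_, ?_⟩
  · have h := beats_formula h2 (sum_pt t) hne23 hne01
    rw [eA1, eA2, eB1, eB2, NN_BA] at h
    have hr : 0 < t ^ 3 * MM t := mul_pos (pow_pos ht0 3) h7
    rw [← h] at hr
    have := (pos_iff_pos_of_mul_pos hr).mp h10
    linarith
  · have h := beats_formula h2 (sum_pt t) hne01 hne45
    rw [eA1, eA2, eC1, eC2] at h
    have e : NN (1 / 343) (1 / 49) (PB (-t)) (cB (-t)) = t ^ 3 * MM (-t) := by
      have h' := NN_BA (-t)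
      have hanti : NN (1 / 343) (1 / 49) (PB (-t)) (cB (-t)) =
          - NN (PB (-t)) (cB (-t)) (1 / 343) (1 / 49) := by
        unfold NN
        ring
      rw [hanti, h']
      ring
    rw [e] at h
    have hr : 0 < t ^ 3 * MM (-t) := mul_pos (pow_pos ht0 3) h8
    rw [← h] at hr
    have := (pos_iff_pos_of_mul_pos hr).mp h11
    linarith
  · have h := beats_formula h2 (sum_pt t) hne45 hne23
    rw [eB1, eB2, eC1, eC2, NN_CB] at h
    have hr : 0 < t ^ 3 * KK t := mul_pos (pow_pos ht0 3) h9
    rw [← h] at hr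
    have := (pos_iff_pos_of_mul_pos hr).mp h12
    linarith

end Pool.Agent.Results.MP_8d137a_pr.CycleNearUniform
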